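import Mathlib

/-!
MP_0a3b9a_nt, Q1 fails for `p = 11` (wrong sign for `p ≡ 11 (mod 24)`).
-/

set_option autoImplicit false

namespace Pool.Agent.Results.MP_0a3b9a_nt.WrongSign

/-- `binom(a,k) = a (a-1) ... (a-k+1) / k!` -/
def binom (a : ℚ) (k : ℕ) : ℚ := (∏ i ∈ Finset.range k, (a - i)) / k.factorial

def S1 (p : ℕ) : ℚ :=
  ∑ k ∈ Finset.range p, binom (-1 / 3) k * binom (-1 / 6) k * (27 / 2) ^ k

def S2 (p : ℕ) : ℚ :=
  ∑ k ∈ Finset.range p, binom (-2 / 3) k * binom (-5 / 6) k * (27 / 2) ^ k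

/-- `ε_p` -/
def eps (p : ℕ) : ℚ := if p % 3 = 1 then 1 else -25 / 2

/-- Legendre symbol of a `p`-integral rational (`(u/v | p) = (u v | p)`) -/
def leg (r : ℚ) (p : ℕ) : ℤ := jacobiSym (r.num * r.den) p

/-- `R(p)` computed from `p = c² + 2 d²` -/
def R (p : ℕ) (c d : ℤ) : ℚ :=
  if p % 24 = 1 ∨ p % 24 = 19 then
    (-1) ^ (p / 8) * leg (-2 - c / d) p * (2 * c - p / (2 * c))
  else (-1) ^ (p / 8) * leg (2 + c / d) p * (10 * d - 5 * p / (4 * d))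

/-- `a ≡ b (mod p^m)`: `(a-b)/p^m` is `p`-integral -/
def Cong (p m : ℕ) (a b : ℚ) : Prop := ¬ p ∣ ((a - b) / (p : ℚ) ^ m).den

/-- the statement of Q1 -/
def Q1 : Prop := ∀ p : ℕ, p.Prime → p ≠ 3 → (p % 8 = 1 ∨ p % 8 = 3) →
  ∀ c d : ℤ, (p : ℤ) = c ^ 2 + 2 * d ^ 2 → c % 4 = 1 →
    Cong p 2 (S1 p) (eps p * S2 p) ∧ Cong p 2 (S1 p) (R p c d)

theorem cases {c d : ℤ} (h : (11 : ℤ) = c ^ 2 + 2 * d ^ 2) (hc : c % 4 = 1) :
    c = -3 ∧ (d = 1 ∨ d = -1) := by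
  have h1 : c ≤ 3 := by nlinarith [sq_nonneg d]
  have h2 : -3 ≤ c := by nlinarith [sq_nonneg d]
  have hc' : c = 1 ∨ c = -3 := by omega
  have h3 : d ≤ 2 := by nlinarith [sq_nonneg c]
  have h4 : -2 ≤ d := by nlinarith [sq_nonneg c]
  rcases hc' with rfl | rfl
  · exfalso
    interval_cases d <;> omega
  · refine ⟨rfl, ?_⟩
    interval_cases d <;> omega

/-- For `p = 11` the second congruence fails for every admissible `c, d`, and it becomes true with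
the opposite sign; hence the statement of Q1 is false. -/
theorem result : (∀ c d : ℤ, (11 : ℤ) = c ^ 2 + 2 * d ^ 2 → c % 4 = 1 →
    ¬ Cong 11 2 (S1 11) (R 11 c d) ∧ Cong 11 2 (S1 11) (-R 11 c d)) ∧ ¬ Q1 := by
  have key : ∀ c d : ℤ, (11 : ℤ) = c ^ 2 + 2 * d ^ 2 → c % 4 = 1 →
      ¬ Cong 11 2 (S1 11) (R 11 c d) ∧ Cong 11 2 (S1 11) (-R 11 c d) := by
    intro c d h hc
    obtain ⟨rfl, hd⟩ := cases h hc
    have e1 : leg (2 + (((-3 : ℤ)) : ℚ) / (((1 : ℤ)) : ℚ)) 11 = -1 := by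
      unfold leg
      norm_num
    have e2 : leg (2 + (((-3 : ℤ)) : ℚ) / (((-1 : ℤ)) : ℚ)) 11 = 1 := by
      unfold leg
      norm_num
    unfold Cong R
    rcases hd with rfl | rfl
    · rw [e1]
      decide +kernel
    · rw [e2]
      decide +kernel
  refine ⟨key, fun h => ?_⟩
  exact (key (-3) 1 (by norm_num) (by norm_num)).1
    (h 11 (by norm_num) (by norm_num) (by norm_num) (-3) 1 (by norm_num) (by norm_num)).2

end Pool.Agent.Results.MP_0a3b9a_nt.WrongSign
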